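import Pool.Agent.RS.StmtsT

/-!
# Squad RS, row GDM: the rings of germs are domains
-/

set_option autoImplicit false

namespace Pool.Agent.RS.H69

open MvPolynomial Pool.Agent.RS

theorem nzd (E : Type) [Field E] : NoZeroDivisors (AS E) := by
  constructor
  intro a b h
  induction a using Filter.Germ.inductionOn with | _ F => ?_
  induction b using Filter.Germ.inductionOn with | _ G => ?_
  have h1 : ∀ᶠ n in (uf : Filter ℕ), F n * G n = 0 := Filter.Germ.coe_eq.1 h
  have h2 : ∀ᶠ n in (uf : Filter ℕ), F n = 0 ∨ G n = 0 := h1.mono fun n hn => mul_eq_zero.1 hn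
  rcases Ultrafilter.eventually_or.1 h2 with h3 | h3
  · exact Or.inl (Filter.Germ.coe_eq.2 h3)
  · exact Or.inr (Filter.Germ.coe_eq.2 h3)

theorem ntr (E : Type) [Field E] : Nontrivial (AS E) := inferInstance

/-- Row GDM. -/
theorem gdm : GdmStmt := by
  intro E _
  haveI := nzd E
  haveI := ntr E
  haveI h1 : IsDomain (AS E) := NoZeroDivisors.to_isDomain _
  exact ⟨h1, inferInstance⟩

end Pool.Agent.RS.H69
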